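import Mathlib

open Set Topology

noncomputable section

namespace Pool.Agent.Results.MP_cdfe0d_gt.SolenoidProduct

/-- `K` is a subcontinuum of the space `S`: a nonempty compact connected subset. -/
def IsSubcontinuum {S : Type*} [TopologicalSpace S] (K : Set S) : Prop :=
  IsCompact K ∧ IsConnected K

/-- `X` is an indecomposable continuum: a nonempty compact connected Hausdorff space which is not
the union of two proper subcontinua. -/
def IsIndecomposableContinuum (X : Type*) [TopologicalSpace X] : Prop :=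
  T2Space X ∧ CompactSpace X ∧ ConnectedSpace X ∧
    ¬ ∃ A B : Set X, IsSubcontinuum A ∧ IsSubcontinuum B ∧ A ≠ univ ∧ B ≠ univ ∧ A ∪ B = univ

/-- Jones's set function `T`: the complement of the set of all points that lie in the interior of
a subcontinuum of `S` disjoint from `A`. -/
def jonesT {S : Type*} [TopologicalSpace S] (A : Set S) : Set S :=
  {p | ∃ K : Set S, IsSubcontinuum K ∧ p ∈ interior K ∧ K ∩ A = ∅}ᶜ

/-- a criterion for indecomposability -/
theorem indecomposable_of_eq_univ {X : Type*} [TopologicalSpace X] [T2Space X] [CompactSpace X]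
    [ConnectedSpace X]
    (h : ∀ C : Set X, IsClosed C → IsPreconnected C → (interior C).Nonempty → C = univ) :
    IsIndecomposableContinuum X := by
  refine ⟨inferInstance, inferInstance, inferInstance, ?_⟩
  rintro ⟨A, B, hA, hB, hA', hB', hAB⟩
  apply hB'
  apply h B hB.1.isClosed hB.2.isPreconnected
  have hsub : Aᶜ ⊆ B := by
    intro x hx
    have : x ∈ A ∪ B := by rw [hAB]; trivial
    exact this.resolve_left hx
  have hopen : IsOpen Aᶜ := hA.1.isClosed.isOpen_compl
  obtain ⟨x, hx⟩ := nonempty_compl.mpr hA'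
  exact ⟨x, interior_maximal hsub hopen hx⟩

/-- The `p`-adic solenoid as a subgroup of the countable power of the circle. -/
def Sol (p : ℕ) : AddSubgroup (ℕ → UnitAddCircle) where
  carrier := {x | ∀ n, p • x (n + 1) = x n}
  add_mem' := by
    intro a b ha hb n
    simp only [Pi.add_apply, smul_add]
    rw [ha n, hb n]
  zero_mem' := by
    intro n
    simp
  neg_mem' := by
    intro a ha n
    simp only [Pi.neg_apply, smul_neg]
    rw [ha n]

theorem Sol.step {p : ℕ} (x : Sol p) (n : ℕ) : p • x.1 (n + 1) = x.1 n := x.2 n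

theorem Sol.steps {p : ℕ} (x : Sol p) (n k : ℕ) : p ^ k • x.1 (n + k) = x.1 n := by
  induction k with
  | zero => simp
  | succ k ih =>
    rw [pow_succ, mul_smul, ← add_assoc, Sol.step, ih]

theorem Sol.eq_of_eq {p : ℕ} {x y : Sol p} {n m : ℕ} (h : x.1 n = y.1 n) (hm : m ≤ n) :
    x.1 m = y.1 m := by
  obtain ⟨k, rfl⟩ := Nat.exists_eq_add_of_le hm
  rw [← Sol.steps x m k, ← Sol.steps y m k, h]

theorem isClosed_Sol (p : ℕ) : IsClosed (Sol p : Set (ℕ → UnitAddCircle)) := by
  have : (Sol p : Set (ℕ → UnitAddCircle)) = ⋂ n, {x | p • x (n + 1) = x n} := by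
    ext x; simp [Sol]
  rw [this]
  exact isClosed_iInter fun n => isClosed_eq ((continuous_nsmul p).comp (continuous_apply (n + 1))) (continuous_apply n)

instance (p : ℕ) : CompactSpace (Sol p) := isCompact_iff_compactSpace.mp (isClosed_Sol p).isCompact

theorem Sol.metrizable (p : ℕ) : TopologicalSpace.MetrizableSpace (Sol p) :=
  IsEmbedding.subtypeVal.metrizableSpace

theorem Sol.continuous_coord {p : ℕ} (n : ℕ) : Continuous fun x : Sol p => x.1 n :=
  (continuous_apply n).comp continuous_subtype_val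

/-- points agreeing far out with `x` lie in a given neighbourhood of `x` -/
theorem Sol.exists_level {p : ℕ} {O : Set (Sol p)} (hO : IsOpen O) {x : Sol p} (hx : x ∈ O) :
    ∃ n, ∀ y : Sol p, y.1 n = x.1 n → y ∈ O := by
  by_contra hcon
  push Not at hcon
  choose y hy1 hy2 using hcon
  have ht : Filter.Tendsto y Filter.atTop (𝓝 x) := by
    rw [tendsto_subtype_rng, tendsto_pi_nhds]
    intro m
    refine tendsto_const_nhds.congr' ?_
    filter_upwards [Filter.eventually_ge_atTop m] with n hn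
    exact (Sol.eq_of_eq (hy1 n) hn).symm
  obtain ⟨n, hn⟩ := (ht.eventually (hO.mem_nhds hx)).exists
  exact hy2 n hn

/-- the standard line in the solenoid -/
def Sol.line (p : ℕ) (hp : p ≠ 0) (t : ℝ) : Sol p :=
  ⟨fun n => ((t / (p : ℝ) ^ n : ℝ) : UnitAddCircle), by
    intro n
    rw [← AddCircle.coe_nsmul]
    congr 1
    rw [nsmul_eq_mul, pow_succ]
    have : (p : ℝ) ≠ 0 := by exact_mod_cast hp
    field_simp⟩

theorem Sol.line_coord {p : ℕ} (hp : p ≠ 0) (t : ℝ) (n : ℕ) :
    (Sol.line p hp t).1 n = ((t / (p : ℝ) ^ n : ℝ) : UnitAddCircle) := rfl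

theorem Sol.continuous_line {p : ℕ} (hp : p ≠ 0) : Continuous (Sol.line p hp) := by
  refine Continuous.subtype_mk (continuous_pi fun n => ?_) _
  exact (AddCircle.continuous_mk' 1).comp (by fun_prop : Continuous fun t : ℝ => t / (p : ℝ) ^ n)

/-- A closed preconnected set with interior points is everything. -/
theorem Sol.eq_univ {p : ℕ} (hp : 2 ≤ p) {C : Set (Sol p)} (hC : IsClosed C)
    (hpre : IsPreconnected C) (hint : (interior C).Nonempty) : C = univ := by
  by_contra hne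
  obtain ⟨a, ha⟩ : ∃ a, a ∉ C := by
    by_contra h; push Not at h; exact hne (eq_univ_of_forall h)
  obtain ⟨c, hc⟩ := hint
  obtain ⟨n, hn⟩ := Sol.exists_level hC.isOpen_compl (x := a) ha
  obtain ⟨m₀, hm₀⟩ := Sol.exists_level isOpen_interior hc
  set m := max n m₀ with hmdef
  have hnm : n ≤ m := le_max_left _ _
  have hm₀m : m₀ ≤ m := le_max_right _ _
  obtain ⟨k, hk⟩ := Nat.exists_eq_add_of_le (le_trans hnm (Nat.le_succ m))
  have hp0 : p ≠ 0 := by omega
  have hpR : (p : ℝ) ≠ 0 := by exact_mod_cast hp0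
  -- the locally constant function
  let r : Sol p → ℝ := fun x => ((AddCircle.equivIco 1 (0 : ℝ) (x.1 n - a.1 n) : Ico (0 : ℝ) (0 + 1)) : ℝ)
  let g : Sol p → UnitAddCircle := fun x => x.1 (m + 1) - ((r x / (p : ℝ) ^ k : ℝ) : UnitAddCircle)
  have hr : ∀ x, ((r x : ℝ) : UnitAddCircle) = x.1 n - a.1 n := fun x => AddCircle.coe_equivIco
  have hgcont : ContinuousOn g C := by
    intro x hx
    have hxa : x.1 n - a.1 n ≠ (0 : ℝ) := by
      intro h0
      have : x.1 n = a.1 n := sub_eq_zero.mp (by simpa using h0)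
      exact hn x this hx
    have h1 : ContinuousAt (AddCircle.equivIco 1 (0 : ℝ)) (x.1 n - a.1 n) :=
      AddCircle.continuousAt_equivIco 1 (0 : ℝ) hxa
    have h2 : ContinuousAt (fun x : Sol p => x.1 n - a.1 n) x :=
      ((Sol.continuous_coord n).sub continuous_const).continuousAt
    have h3 : ContinuousAt r x :=
      continuousAt_subtype_val.comp (ContinuousAt.comp (f := fun x : Sol p => x.1 n - a.1 n) h1 h2)
    have h4 : ContinuousAt (fun y => ((r y / (p : ℝ) ^ k : ℝ) : UnitAddCircle)) x :=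
      (AddCircle.continuous_mk' (1 : ℝ)).continuousAt.comp (h3.div_const _)
    exact ((Sol.continuous_coord (m + 1)).continuousAt.sub h4).continuousWithinAt
  have hpk : ∀ x, p ^ k • g x = a.1 n := by
    intro x
    have h1 : p ^ k • x.1 (m + 1) = x.1 n := by
      have := Sol.steps x n k
      rwa [← hk] at this
    have h2 : p ^ k • ((r x / (p : ℝ) ^ k : ℝ) : UnitAddCircle) = x.1 n - a.1 n := by
      rw [← AddCircle.coe_nsmul, nsmul_eq_mul, ← hr x]
      congr 1
      push_cast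
      field_simp
    show p ^ k • (x.1 (m + 1) - ((r x / (p : ℝ) ^ k : ℝ) : UnitAddCircle)) = a.1 n
    rw [nsmul_sub, h1, h2]
    abel
  have hfin : {u : UnitAddCircle | p ^ k • u = a.1 n}.Finite := by
    have h0 : {u : UnitAddCircle | p ^ k • u = 0}.Finite :=
      AddCircle.finite_torsion (1 : ℝ) (Nat.pos_of_ne_zero (pow_ne_zero _ hp0))
    refine (h0.image fun u => u + g a).subset ?_
    intro u hu
    refine ⟨u - g a, ?_, sub_add_cancel _ _⟩
    have hu' : p ^ k • u = a.1 n := hu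
    show p ^ k • (u - g a) = 0
    rw [nsmul_sub, hu', hpk a, sub_self]
  -- the two points
  let w : Sol p := Sol.line p hp0 ((p : ℝ) ^ m)
  have hw : ∀ j ≤ m, w.1 j = 0 := by
    intro j hj
    show (((p : ℝ) ^ m / (p : ℝ) ^ j : ℝ) : UnitAddCircle) = 0
    rw [AddCircle.coe_eq_zero_iff]
    refine ⟨(p : ℤ) ^ (m - j), ?_⟩
    rw [zsmul_eq_mul, mul_one]
    push_cast
    rw [eq_div_iff (pow_ne_zero _ hpR), ← pow_add, Nat.sub_add_cancel hj]
  have hw1 : w.1 (m + 1) ≠ 0 := by
    show (((p : ℝ) ^ m / (p : ℝ) ^ (m + 1) : ℝ) : UnitAddCircle) ≠ 0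
    intro h
    rw [AddCircle.coe_eq_zero_iff] at h
    obtain ⟨i, hi⟩ := h
    rw [zsmul_eq_mul, mul_one, pow_succ] at hi
    have hpm : (p : ℝ) ^ m ≠ 0 := pow_ne_zero _ hpR
    have h1 : (i : ℝ) * p = 1 := by
      rw [hi]; field_simp
    have h2 : i * (p : ℤ) = 1 := by exact_mod_cast h1
    have h3 : (p : ℤ) ∣ 1 := ⟨i, by rw [← h2]; ring⟩
    have h4 : (p : ℤ) ≤ 1 := Int.le_of_dvd one_pos h3
    omega
  have hcC : c ∈ C := interior_subset hc
  have hcw : c + w ∈ C := by
    apply interior_subset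
    apply hm₀
    show c.1 m₀ + w.1 m₀ = c.1 m₀
    rw [hw m₀ hm₀m, add_zero]
  have hconst : g c = g (c + w) := by
    refine hpre.constant_of_mapsTo (T := {u : UnitAddCircle | p ^ k • u = a.1 n}) ?_ hgcont ?_ hcC hcw
    · exact hfin.isDiscrete
    · intro x _
      exact hpk x
  have hrr : r (c + w) = r c := by
    show ((AddCircle.equivIco 1 (0 : ℝ) ((c + w).1 n - a.1 n) : Ico (0 : ℝ) (0 + 1)) : ℝ) = _
    have : (c + w).1 n = c.1 n := by
      show c.1 n + w.1 n = c.1 n
      rw [hw n hnm, add_zero]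
    rw [this]
  have : g (c + w) = g c + w.1 (m + 1) := by
    simp only [g, hrr]
    show c.1 (m + 1) + w.1 (m + 1) - _ = c.1 (m + 1) - _ + w.1 (m + 1)
    abel
  rw [this] at hconst
  exact hw1 (by simpa using hconst)


/-- the solenoid is connected -/
theorem Sol.connectedSpace {p : ℕ} (hp : p ≠ 0) : ConnectedSpace (Sol p) := by
  have hpR : (p : ℝ) ≠ 0 := by exact_mod_cast hp
  rw [connectedSpace_iff_univ]
  refine (isConnected_range (Sol.continuous_line hp)).subset_closure (subset_univ _) ?_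
  intro x _
  have hex : ∀ n, ∃ t : ℝ, (Sol.line p hp t).1 n = x.1 n := by
    intro n
    obtain ⟨α, hα⟩ := QuotientAddGroup.mk_surjective (x.1 n)
    refine ⟨p ^ n * α, ?_⟩
    rw [Sol.line_coord, mul_div_cancel_left₀ _ (pow_ne_zero _ hpR)]
    exact hα
  choose t ht using hex
  refine mem_closure_of_tendsto (b := Filter.atTop) (f := fun n => Sol.line p hp (t n)) ?_
    (Filter.Eventually.of_forall fun n => ⟨t n, rfl⟩)
  rw [tendsto_subtype_rng, tendsto_pi_nhds]
  intro m
  refine tendsto_const_nhds.congr' ?_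
  filter_upwards [Filter.eventually_ge_atTop m] with n hn
  exact (Sol.eq_of_eq (ht n) hn).symm

theorem exists_time (x : Sol 2) (y : Sol 3) (h : x.1 0 = y.1 0) (n : ℕ) :
    ∃ t : ℝ, (Sol.line 2 two_ne_zero t).1 n = x.1 n ∧ (Sol.line 3 three_ne_zero t).1 n = y.1 n := by
  obtain ⟨α, hα⟩ := QuotientAddGroup.mk_surjective (x.1 n)
  obtain ⟨β, hβ⟩ := QuotientAddGroup.mk_surjective (y.1 n)
  have hα' : ((α : ℝ) : UnitAddCircle) = x.1 n := hα
  have hβ' : ((β : ℝ) : UnitAddCircle) = y.1 n := hβ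
  have hx := Sol.steps x 0 n
  have hy := Sol.steps y 0 n
  rw [zero_add] at hx hy
  have h0 : ((2 ^ n * α - 3 ^ n * β : ℝ) : UnitAddCircle) = 0 := by
    have e1 : ((2 ^ n * α : ℝ) : UnitAddCircle) = x.1 0 := by
      rw [← hx, ← hα', ← AddCircle.coe_nsmul, nsmul_eq_mul]
      push_cast
      rfl
    have e2 : ((3 ^ n * β : ℝ) : UnitAddCircle) = y.1 0 := by
      rw [← hy, ← hβ', ← AddCircle.coe_nsmul, nsmul_eq_mul]
      push_cast
      rfl
    rw [AddCircle.coe_sub, e1, e2, h, sub_self]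
  rw [AddCircle.coe_eq_zero_iff] at h0
  obtain ⟨k, hk⟩ := h0
  rw [zsmul_eq_mul, mul_one] at hk
  have hcop : IsCoprime ((2 : ℤ) ^ n) ((3 : ℤ) ^ n) := by
    apply IsCoprime.pow
    exact ⟨-1, 1, by norm_num⟩
  obtain ⟨a, b, hab⟩ := hcop
  have habR : (a : ℝ) * 2 ^ n + b * 3 ^ n = 1 := by exact_mod_cast hab
  refine ⟨2 ^ n * (α - k * a), ?_, ?_⟩
  · rw [Sol.line_coord, ← hα']
    have : (2 ^ n * (α - k * a) / ((2 : ℕ) : ℝ) ^ n : ℝ) = α - ((k * a : ℤ) : ℝ) := by
      push_cast
      field_simp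
    rw [this, AddCircle.coe_sub]
    have h1 : (((k * a : ℤ) : ℝ) : UnitAddCircle) = 0 := by
      rw [AddCircle.coe_eq_zero_iff]
      exact ⟨k * a, by simp⟩
    rw [h1, sub_zero]
  · rw [Sol.line_coord, ← hβ']
    have : (2 ^ n * (α - k * a) / ((3 : ℕ) : ℝ) ^ n : ℝ) = β + ((k * b : ℤ) : ℝ) := by
      push_cast
      rw [div_eq_iff (by positivity)]
      linear_combination hk.symm - k * habR
    rw [this, AddCircle.coe_add]
    have h1 : (((k * b : ℤ) : ℝ) : UnitAddCircle) = 0 := by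
      rw [AddCircle.coe_eq_zero_iff]
      exact ⟨k * b, by simp⟩
    rw [h1, add_zero]

theorem isConnected_diag : IsConnected {z : Sol 2 × Sol 3 | z.1.1 0 = z.2.1 0} := by
  have hc : Continuous fun t : ℝ => (Sol.line 2 two_ne_zero t, Sol.line 3 three_ne_zero t) :=
    (Sol.continuous_line _).prodMk (Sol.continuous_line _)
  refine (isConnected_range hc).subset_closure ?_ ?_
  · rintro _ ⟨t, rfl⟩
    show ((t / _ : ℝ) : UnitAddCircle) = ((t / _ : ℝ) : UnitAddCircle)
    simp
  · rintro ⟨x, y⟩ hxy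
    have hxy' : x.1 0 = y.1 0 := hxy
    choose t ht1 ht2 using exists_time x y hxy'
    refine mem_closure_of_tendsto (b := Filter.atTop)
      (f := fun n => (Sol.line 2 two_ne_zero (t n), Sol.line 3 three_ne_zero (t n))) ?_
      (Filter.Eventually.of_forall fun n => ⟨t n, rfl⟩)
    refine Filter.Tendsto.prodMk_nhds ?_ ?_
    · rw [tendsto_subtype_rng, tendsto_pi_nhds]
      intro m
      refine tendsto_const_nhds.congr' ?_
      filter_upwards [Filter.eventually_ge_atTop m] with n hn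
      exact (Sol.eq_of_eq (ht1 n) hn).symm
    · rw [tendsto_subtype_rng, tendsto_pi_nhds]
      intro m
      refine tendsto_const_nhds.congr' ?_
      filter_upwards [Filter.eventually_ge_atTop m] with n hn
      exact (Sol.eq_of_eq (ht2 n) hn).symm

theorem exists_rep (u : UnitAddCircle) : ∃ s : ℝ, (s : UnitAddCircle) = u ∧ |s| = ‖u‖ := by
  obtain ⟨x, rfl⟩ := QuotientAddGroup.mk_surjective u
  refine ⟨x - round x, ?_, (UnitAddCircle.norm_eq).symm⟩
  rw [AddCircle.coe_sub]
  have : ((round x : ℝ) : UnitAddCircle) = 0 := by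
    rw [AddCircle.coe_eq_zero_iff]; exact ⟨round x, by simp⟩
  rw [this, sub_zero]

theorem norm_coe_le (s : ℝ) : ‖(s : UnitAddCircle)‖ ≤ |s| := by
  rw [UnitAddCircle.norm_eq]
  have := round_le s 0
  simpa using this

/-- closed strips around translates of the diagonal are connected -/
theorem isConnected_strip (c δ : ℝ) (hδ : 0 ≤ δ) :
    IsConnected {z : Sol 2 × Sol 3 | ‖z.1.1 0 - z.2.1 0 - (c : UnitAddCircle)‖ ≤ δ} := by
  have hI : IsConnected (Icc (-δ) δ) := isConnected_Icc (by linarith)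
  have h1 := isConnected_diag.prod hI
  let F : (Sol 2 × Sol 3) × ℝ → Sol 2 × Sol 3 :=
    fun w => (w.1.1, w.1.2 - Sol.line 3 three_ne_zero (c + w.2))
  have hF : Continuous F := by
    refine Continuous.prodMk (continuous_fst.comp continuous_fst) ?_
    exact (continuous_snd.comp continuous_fst).sub
      ((Sol.continuous_line _).comp (continuous_const.add continuous_snd))
  have h2 := h1.image F hF.continuousOn
  have h3 : ∀ (t : ℝ), (Sol.line 3 three_ne_zero t).1 0 = (t : UnitAddCircle) := by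
    intro t
    rw [Sol.line_coord]; simp
  convert h2 using 1
  ext ⟨x, y⟩
  constructor
  · intro hxy
    have hxy' : ‖x.1 0 - y.1 0 - (c : UnitAddCircle)‖ ≤ δ := hxy
    obtain ⟨s, hs1, hs2⟩ := exists_rep (x.1 0 - y.1 0 - (c : UnitAddCircle))
    refine ⟨((x, y + Sol.line 3 three_ne_zero (c + s)), s), ⟨?_, ?_⟩, ?_⟩
    · show x.1 0 = y.1 0 + (Sol.line 3 three_ne_zero (c + s)).1 0
      rw [h3, AddCircle.coe_add, hs1]
      abel
    · rw [← hs2] at hxy'
      exact abs_le.mp hxy'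
    · show (x, y + Sol.line 3 three_ne_zero (c + s) - Sol.line 3 three_ne_zero (c + s)) = (x, y)
      rw [add_sub_cancel_right]
  · rintro ⟨⟨⟨x', y'⟩, s⟩, ⟨hd, hs⟩, he⟩
    have hd' : x'.1 0 = y'.1 0 := hd
    have he1 : x' = x := congrArg Prod.fst he
    have he2 : y' - Sol.line 3 three_ne_zero (c + s) = y := congrArg Prod.snd he
    subst he1
    subst he2
    show ‖x'.1 0 - (y'.1 0 - (Sol.line 3 three_ne_zero (c + s)).1 0) - (c : UnitAddCircle)‖ ≤ δ
    rw [h3, AddCircle.coe_add, hd']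
    have : y'.1 0 - (y'.1 0 - ((c : UnitAddCircle) + (s : UnitAddCircle))) - (c : UnitAddCircle)
        = (s : UnitAddCircle) := by abel
    rw [this]
    exact (norm_coe_le s).trans (abs_le.mpr hs)

theorem Sol.indecomposable {p : ℕ} (hp : 2 ≤ p) : IsIndecomposableContinuum (Sol p) := by
  have := Sol.connectedSpace (p := p) (by omega)
  exact indecomposable_of_eq_univ fun C h1 h2 h3 => Sol.eq_univ hp h1 h2 h3

theorem Sol.nontrivial {p : ℕ} (hp : p ≠ 0) : Nontrivial (Sol p) := by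
  refine ⟨0, Sol.line p hp (1 / 2), ?_⟩
  intro h
  have h1 : (Sol.line p hp (1 / 2)).1 0 = 0 := by rw [← h]; rfl
  rw [Sol.line_coord, AddCircle.coe_eq_zero_iff] at h1
  obtain ⟨n, hn⟩ := h1
  simp only [zsmul_eq_mul, mul_one, pow_zero, div_one] at hn
  have h2 : (2 * n : ℝ) = 1 := by rw [hn]; norm_num
  have h3 : 2 * n = 1 := by exact_mod_cast h2
  omega

theorem norm_half : ‖((1 / 2 : ℝ) : UnitAddCircle)‖ = 1 / 2 := by
  rw [UnitAddCircle.norm_eq]
  rw [show round (1 / 2 : ℝ) = 1 by norm_num [round_eq]]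
  norm_num

theorem result : ∃ (X Y : Type) (_ : TopologicalSpace X) (_ : TopologicalSpace Y),
    IsIndecomposableContinuum X ∧ IsIndecomposableContinuum Y ∧
    TopologicalSpace.MetrizableSpace X ∧ TopologicalSpace.MetrizableSpace Y ∧
    ∃ W : Set (X × Y), IsSubcontinuum W ∧ (interior W).Nonempty ∧ jonesT W ≠ univ := by
  refine ⟨Sol 2, Sol 3, inferInstance, inferInstance, Sol.indecomposable le_rfl,
    Sol.indecomposable (by norm_num), Sol.metrizable 2, Sol.metrizable 3, ?_⟩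
  have hcont : ∀ c : ℝ, Continuous fun z : Sol 2 × Sol 3 =>
      ‖z.1.1 0 - z.2.1 0 - (c : UnitAddCircle)‖ := by
    intro c
    exact ((((Sol.continuous_coord 0).comp continuous_fst).sub
      ((Sol.continuous_coord 0).comp continuous_snd)).sub continuous_const).norm
  have hcl : ∀ c δ : ℝ, IsClosed {z : Sol 2 × Sol 3 | ‖z.1.1 0 - z.2.1 0 - (c : UnitAddCircle)‖ ≤ δ} :=
    fun c δ => isClosed_le (hcont c) continuous_const
  have hop : ∀ c δ : ℝ, {z : Sol 2 × Sol 3 | ‖z.1.1 0 - z.2.1 0 - (c : UnitAddCircle)‖ < δ} ⊆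
      interior {z : Sol 2 × Sol 3 | ‖z.1.1 0 - z.2.1 0 - (c : UnitAddCircle)‖ ≤ δ} := by
    intro c δ
    apply interior_maximal
    · intro z hz
      have h : ‖z.1.1 0 - z.2.1 0 - (c : UnitAddCircle)‖ < δ := hz
      exact h.le
    · exact isOpen_lt (hcont c) continuous_const
  refine ⟨{z | ‖z.1.1 0 - z.2.1 0 - ((0 : ℝ) : UnitAddCircle)‖ ≤ 1 / 8},
    ⟨(hcl 0 _).isCompact, isConnected_strip 0 (1 / 8) (by norm_num)⟩, ⟨(0, 0), ?_⟩, ?_⟩
  · apply hop
    simp
  · intro huniv
    have hmem : ((Sol.line 2 two_ne_zero (1 / 2), 0) : Sol 2 × Sol 3) ∈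
        jonesT {z : Sol 2 × Sol 3 | ‖z.1.1 0 - z.2.1 0 - ((0 : ℝ) : UnitAddCircle)‖ ≤ 1 / 8} := by
      rw [huniv]; trivial
    apply hmem
    refine ⟨{z | ‖z.1.1 0 - z.2.1 0 - ((1 / 2 : ℝ) : UnitAddCircle)‖ ≤ 1 / 8},
      ⟨(hcl (1 / 2) _).isCompact, isConnected_strip (1 / 2) (1 / 8) (by norm_num)⟩, ?_, ?_⟩
    · apply hop
      show ‖(Sol.line 2 two_ne_zero (1 / 2)).1 0 - (0 : UnitAddCircle) - ((1 / 2 : ℝ) : UnitAddCircle)‖ < 1 / 8
      rw [Sol.line_coord]
      simp
    · ext z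
      simp only [mem_inter_iff, mem_empty_iff_false, iff_false, not_and]
      intro h1 h2
      have h1' : ‖z.1.1 0 - z.2.1 0 - ((1 / 2 : ℝ) : UnitAddCircle)‖ ≤ 1 / 8 := h1
      have h2' : ‖z.1.1 0 - z.2.1 0 - ((0 : ℝ) : UnitAddCircle)‖ ≤ 1 / 8 := h2
      have h3 := norm_sub_le (z.1.1 0 - z.2.1 0 - ((0 : ℝ) : UnitAddCircle))
        (z.1.1 0 - z.2.1 0 - ((1 / 2 : ℝ) : UnitAddCircle))
      have h4 : z.1.1 0 - z.2.1 0 - ((0 : ℝ) : UnitAddCircle)
          - (z.1.1 0 - z.2.1 0 - ((1 / 2 : ℝ) : UnitAddCircle)) = ((1 / 2 : ℝ) : UnitAddCircle) := by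
        rw [AddCircle.coe_zero]; abel
      rw [h4, norm_half] at h3
      linarith

end Pool.Agent.Results.MP_cdfe0d_gt.SolenoidProduct
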